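import Pool.Agent.U37.LC.Stm2

set_option autoImplicit false

open MeasureTheory Filter Topology Complex

namespace Pool.Agent.U37.LC

/-- the Cauchy kernel has integral at most `π` -/
theorem poisson_upper (x ε : ℝ) (hε : 0 < ε) :
    ∫⁻ t, ENNReal.ofReal (ε / ((x - t) ^ 2 + ε ^ 2)) ≤ ENNReal.ofReal Real.pi := by
  have h1 : ∀ t : ℝ, ε / ((x - t) ^ 2 + ε ^ 2) = ε⁻¹ * (1 + ((t - x) / ε) ^ 2)⁻¹ := by
    intro t
    field_simp
    ring
  have h2 : Integrable (fun t : ℝ => (1 + ((t - x) / ε) ^ 2)⁻¹) := by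
    have h := integrable_inv_one_add_sq
    have h' := (h.comp_div hε.ne').comp_sub_right x
    exact h'
  simp_rw [h1]
  rw [← ofReal_integral_eq_lintegral_ofReal (h2.const_mul _)
    (Eventually.of_forall fun t => by positivity)]
  refine ENNReal.ofReal_le_ofReal ?_
  rw [integral_const_mul]
  have h3 : ∫ t : ℝ, (1 + ((t - x) / ε) ^ 2)⁻¹ = ε * Real.pi := by
    have := integral_sub_right_eq_self (μ := volume) (fun t : ℝ => (1 + (t / ε) ^ 2)⁻¹) x
    rw [this, Measure.integral_comp_div (fun t : ℝ => (1 + t ^ 2)⁻¹) ε, abs_of_pos hε,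
      integral_univ_inv_one_add_sq, smul_eq_mul]
  rw [h3, ← mul_assoc, inv_mul_cancel₀ hε.ne', one_mul]

/-- preimages of null sets under a quadratic function -/
theorem null_quad (N : Set ℝ) (hN : volume N = 0) (a c : ℝ) (hc : 0 < c) :
    volume {η : ℝ | a + c * η ^ 2 ∈ N} = 0 := by
  have key : ∀ s : ℝ, volume ((fun y : ℝ => s * Real.sqrt ((y - a) / c)) '' (N ∩ Set.Ioi a)) = 0 := by
    intro s
    refine MeasureTheory.addHaar_image_eq_zero_of_differentiableOn_of_addHaar_eq_zero volume ?_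
      (measure_mono_null Set.inter_subset_left hN)
    intro y hy
    have h1 : 0 < (y - a) / c := div_pos (sub_pos.2 hy.2) hc
    refine DifferentiableAt.differentiableWithinAt ?_
    refine DifferentiableAt.const_mul ?_ s
    exact DifferentiableAt.sqrt (by fun_prop) h1.ne'
  refine measure_mono_null (t := (((fun y : ℝ => (1 : ℝ) * Real.sqrt ((y - a) / c)) ''
    (N ∩ Set.Ioi a)) ∪ ((fun y : ℝ => (-1 : ℝ) * Real.sqrt ((y - a) / c)) ''
    (N ∩ Set.Ioi a))) ∪ {0}) ?_ ?_
  · intro η hη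
    have hη' : a + c * η ^ 2 ∈ N := hη
    rcases lt_trichotomy η 0 with h | h | h
    · left; right
      refine ⟨a + c * η ^ 2, ⟨hη', ?_⟩, ?_⟩
      · have : 0 < c * η ^ 2 := mul_pos hc (sq_pos_of_ne_zero h.ne)
        simp only [Set.mem_Ioi]; linarith
      · have e : (a + c * η ^ 2 - a) / c = η ^ 2 := by field_simp; ring
        simp only [e, Real.sqrt_sq_eq_abs, abs_of_neg h]; ring
    · right; exact h
    · left; left
      refine ⟨a + c * η ^ 2, ⟨hη', ?_⟩, ?_⟩
      · have : 0 < c * η ^ 2 := by positivity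
        simp only [Set.mem_Ioi]; linarith
      · have e : (a + c * η ^ 2 - a) / c = η ^ 2 := by field_simp; ring
        simp only [e, Real.sqrt_sq_eq_abs, abs_of_pos h]; ring
  · refine measure_union_null (measure_union_null (key 1) (key (-1))) (by simp)

theorem om_meas (θ : ℝ) : Measurable (om θ) := by
  unfold om; fun_prop

theorem null_om (θ : ℝ) (N : Set ℝ) (hm : MeasurableSet N) (hN : volume N = 0) :
    volume (om θ ⁻¹' N) = 0 := by
  rw [Measure.volume_eq_prod, Measure.measure_prod_null (om_meas θ hm)]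
  refine Eventually.of_forall fun p => ?_
  have := null_quad N hN (θ ^ 2 * p ^ 2) (4 * Real.pi ^ 2) (by positivity)
  exact this

theorem jobFree : JobFree := by
  intro θ hθ f hf E hE hE0 δ hδ
  -- the measure with density `‖f‖²` and its image
  set w : ℝ × ℝ → ENNReal := fun q => ENNReal.ofReal (‖f q‖ ^ 2) with hw
  have hwm : AEMeasurable w volume := by
    have := hf.aestronglyMeasurable.norm.aemeasurable
    exact (this.pow_const 2).ennreal_ofReal
  have hwf : ∫⁻ q, w q ≠ ⊤ := by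
    have h : Integrable (fun q => ‖f q‖ ^ 2) volume := by
      have := hf.integrable_norm_pow (by norm_num : (2 : ℕ) ≠ 0)
      exact_mod_cast this
    exact h.lintegral_lt_top.ne
  set μw : Measure (ℝ × ℝ) := volume.withDensity w with hμw
  have hfin : IsFiniteMeasure μw := isFiniteMeasure_withDensity hwf
  set ν : Measure ℝ := μw.map (om θ) with hν
  have hνfin : IsFiniteMeasure ν := by
    rw [hν]; exact Measure.isFiniteMeasure_map μw (om θ)
  have hνE : ν E = 0 := by
    rw [hν, Measure.map_apply (om_meas θ) hE.measurableSet]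
    exact withDensity_absolutelyContinuous _ _ (null_om θ E hE.measurableSet hE0)
  obtain ⟨U, hEU, hUo, hνU⟩ := E.exists_isOpen_lt_of_lt (μ := ν) (ENNReal.ofReal (δ / (2 * Real.pi)))
    (by rw [hνE]; exact ENNReal.ofReal_pos.2 (by positivity))
  obtain ⟨r, hr, hrU⟩ := hE.exists_thickening_subset_open hUo hEU
  set V : Set ℝ := Metric.thickening (r / 2) E with hV
  have hVo : IsOpen V := Metric.isOpen_thickening
  have hVb : volume V < ⊤ := (hE.isBounded.thickening).measure_lt_top
  have hEV : E ⊆ V := Metric.self_subset_thickening (by positivity) E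
  set m : ℝ := (volume V).toReal with hm
  set M : ℝ := (∫⁻ q, w q).toReal with hM
  have hm0 : 0 ≤ m := ENNReal.toReal_nonneg
  have hM0 : 0 ≤ M := ENNReal.toReal_nonneg
  refine ⟨V, hVo, hEV, δ * (r / 2) ^ 2 / (2 * (M * m + 1)), by positivity, fun ε hε hε1 => ?_⟩
  have hκ : Measurable (fun p : ℝ × (ℝ × ℝ) =>
      ENNReal.ofReal (ε / ((om θ p.2 - p.1) ^ 2 + ε ^ 2))) := by
    have h1 : Measurable (fun p : ℝ × (ℝ × ℝ) => om θ p.2) := (om_meas θ).comp measurable_snd
    fun_prop
  -- pass to lower integrals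
  have step1 : ∀ t : ℝ, ENNReal.ofReal (∫ q : ℝ × ℝ, ε / ((om θ q - t) ^ 2 + ε ^ 2) * ‖f q‖ ^ 2) ≤
      ∫⁻ q, ENNReal.ofReal (ε / ((om θ q - t) ^ 2 + ε ^ 2)) * w q := by
    intro t
    have h1 : AEStronglyMeasurable (fun q : ℝ × ℝ => ε / ((om θ q - t) ^ 2 + ε ^ 2) * ‖f q‖ ^ 2)
        volume := by
      refine AEStronglyMeasurable.mul ?_ (hf.aestronglyMeasurable.norm.pow 2)
      have := om_meas θ
      have h2 : Measurable (fun q : ℝ × ℝ => ε / ((om θ q - t) ^ 2 + ε ^ 2)) := by fun_prop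
      exact h2.aestronglyMeasurable
    rw [integral_eq_lintegral_of_nonneg_ae (Eventually.of_forall fun q => by positivity) h1]
    refine ENNReal.ofReal_toReal_le.trans (le_of_eq ?_)
    refine lintegral_congr fun q => ?_
    rw [ENNReal.ofReal_mul (by positivity)]
  -- the integral over `t`
  have hI1 : ∀ x : ℝ, ∫⁻ t in V, ENNReal.ofReal (ε / ((x - t) ^ 2 + ε ^ 2)) ≤
      ENNReal.ofReal Real.pi := fun x =>
    (setLIntegral_le_lintegral _ _).trans (poisson_upper x ε hε)
  have hI2 : ∀ x : ℝ, x ∉ U → ∫⁻ t in V, ENNReal.ofReal (ε / ((x - t) ^ 2 + ε ^ 2)) ≤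
      ENNReal.ofReal (ε / (r / 2) ^ 2) * volume V := by
    intro x hx
    rw [← setLIntegral_const]
    refine setLIntegral_mono' hVo.measurableSet fun t ht => ?_
    refine ENNReal.ofReal_le_ofReal ?_
    have h1 : r / 2 ≤ |x - t| := by
      by_contra hlt
      push Not at hlt
      apply hx
      apply hrU
      rw [hV, Metric.mem_thickening_iff] at ht
      obtain ⟨e, he, hd⟩ := ht
      rw [Metric.mem_thickening_iff]
      refine ⟨e, he, ?_⟩
      have h2 : dist x t < r / 2 := by rw [Real.dist_eq]; exact hlt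
      linarith [dist_triangle x t e]
    have h2 : (r / 2) ^ 2 ≤ (x - t) ^ 2 := by
      rw [← sq_abs (x - t)]
      exact pow_le_pow_left₀ (by positivity) h1 2
    apply div_le_div_of_nonneg_left hε.le (by positivity)
    nlinarith [sq_nonneg ε]
  have hswap : ∫⁻ t in V, ∫⁻ q, ENNReal.ofReal (ε / ((om θ q - t) ^ 2 + ε ^ 2)) * w q =
      ∫⁻ q, (∫⁻ t in V, ENNReal.ofReal (ε / ((om θ q - t) ^ 2 + ε ^ 2))) * w q := by
    rw [lintegral_lintegral_swap]
    · refine lintegral_congr fun q => ?_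
      have h1 : Measurable (fun t : ℝ => ENNReal.ofReal (ε / ((om θ q - t) ^ 2 + ε ^ 2))) := by
        generalize om θ q = a
        fun_prop
      exact lintegral_mul_const _ h1
    · exact AEMeasurable.mul hκ.aemeasurable hwm.comp_snd
  calc ∫⁻ t in V, ENNReal.ofReal (∫ q : ℝ × ℝ, ε / ((om θ q - t) ^ 2 + ε ^ 2) * ‖f q‖ ^ 2)
      ≤ ∫⁻ t in V, ∫⁻ q, ENNReal.ofReal (ε / ((om θ q - t) ^ 2 + ε ^ 2)) * w q :=
        lintegral_mono fun t => step1 t
    _ = ∫⁻ q, (∫⁻ t in V, ENNReal.ofReal (ε / ((om θ q - t) ^ 2 + ε ^ 2))) * w q := hswap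
    _ = (∫⁻ q in om θ ⁻¹' U, (∫⁻ t in V, ENNReal.ofReal (ε / ((om θ q - t) ^ 2 + ε ^ 2))) * w q) +
        ∫⁻ q in (om θ ⁻¹' U)ᶜ, (∫⁻ t in V, ENNReal.ofReal (ε / ((om θ q - t) ^ 2 + ε ^ 2))) * w q :=
        (lintegral_add_compl _ (om_meas θ hUo.measurableSet)).symm
    _ ≤ ENNReal.ofReal Real.pi * ENNReal.ofReal (δ / (2 * Real.pi)) +
        (ENNReal.ofReal (ε / (r / 2) ^ 2) * volume V) * ∫⁻ q, w q := by
        gcongr
        · calc ∫⁻ q in om θ ⁻¹' U, (∫⁻ t in V, ENNReal.ofReal (ε / ((om θ q - t) ^ 2 + ε ^ 2))) * w q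
              ≤ ∫⁻ q in om θ ⁻¹' U, ENNReal.ofReal Real.pi * w q :=
                lintegral_mono fun q => by gcongr; exact hI1 _
            _ = ENNReal.ofReal Real.pi * ∫⁻ q in om θ ⁻¹' U, w q :=
                lintegral_const_mul' _ _ ENNReal.ofReal_ne_top
            _ ≤ ENNReal.ofReal Real.pi * ENNReal.ofReal (δ / (2 * Real.pi)) := by
                gcongr
                rw [← withDensity_apply _ (om_meas θ hUo.measurableSet)]
                rw [hν, Measure.map_apply (om_meas θ) hUo.measurableSet] at hνU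
                exact hνU.le
        · calc ∫⁻ q in (om θ ⁻¹' U)ᶜ, (∫⁻ t in V, ENNReal.ofReal (ε / ((om θ q - t) ^ 2 + ε ^ 2))) * w q
              ≤ ∫⁻ q in (om θ ⁻¹' U)ᶜ, (ENNReal.ofReal (ε / (r / 2) ^ 2) * volume V) * w q := by
                refine setLIntegral_mono' (om_meas θ hUo.measurableSet).compl fun q hq => ?_
                gcongr
                exact hI2 _ hq
            _ ≤ ∫⁻ q, (ENNReal.ofReal (ε / (r / 2) ^ 2) * volume V) * w q :=
                setLIntegral_le_lintegral _ _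
            _ = _ := lintegral_const_mul' _ _ (ENNReal.mul_ne_top ENNReal.ofReal_ne_top hVb.ne)
    _ ≤ ENNReal.ofReal δ := by
        rw [← ENNReal.ofReal_toReal hVb.ne, ← ENNReal.ofReal_toReal hwf, ← hm, ← hM,
          ← ENNReal.ofReal_mul (by positivity), ← ENNReal.ofReal_mul (by positivity),
          ← ENNReal.ofReal_mul (by positivity), ← ENNReal.ofReal_add (by positivity) (by positivity)]
        refine ENNReal.ofReal_le_ofReal ?_
        have h1 : Real.pi * (δ / (2 * Real.pi)) = δ / 2 := by field_simp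
        have h2 : ε / (r / 2) ^ 2 * m * M ≤ δ / 2 := by
          rw [lt_div_iff₀ (by positivity)] at hε1
          have h3 : ε / (r / 2) ^ 2 * m * M = ε * (M * m) / (r / 2) ^ 2 := by ring
          rw [h3, div_le_iff₀ (by positivity)]
          nlinarith
        rw [h1]; linarith

end Pool.Agent.U37.LC
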