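import Pool.Agent.U924.LC.Fibre

/-!
Project LC, job W: the operator `W` exists and is infinitesimally small.
-/

set_option autoImplicit false

open MeasureTheory Filter Topology Complex
open scoped ComplexConjugate InnerProductSpace BoundedContinuousFunction

namespace Pool.Agent.U469.LC

open Pool.Agent.U37.LC Pool.Agent.U924.LC

/-! ### the exponential functions as elements of the Hilbert space of the curve -/

theorem ee_norm (X Y : ℝ → ℝ) (p η s : ℝ) : ‖ee X Y p η s‖ = 1 := by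
  unfold ee
  have : (2 * Real.pi * I * (p * X s + η * Y s) : ℂ) =
      ((2 * Real.pi * (p * X s + η * Y s) : ℝ) : ℂ) * I := by
    push_cast; ring
  rw [this, Complex.norm_exp_ofReal_mul_I]

theorem ee_cont {L : ℝ} {X Y : ℝ → ℝ} (hC : Coord L X Y) (p η : ℝ) :
    Continuous (fun s => ee X Y p η s) := by
  have h1 := hC.contX
  have h2 := hC.contY
  unfold ee
  fun_prop

theorem ee_sub (X Y : ℝ → ℝ) (p η p' η' s : ℝ) :
    ‖ee X Y p η s - ee X Y p' η' s‖ ≤ 2 * Real.pi * (|p - p'| * |X s| + |η - η'| * |Y s|) := by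
  have h1 : ee X Y p η s = ee X Y p' η' s *
      cexp (I * ((2 * Real.pi * ((p - p') * X s + (η - η') * Y s) : ℝ) : ℂ)) := by
    unfold ee
    rw [← Complex.exp_add]
    congr 1
    push_cast
    ring
  rw [h1, ← mul_sub_one, norm_mul, ee_norm, one_mul]
  refine (Real.norm_exp_I_mul_ofReal_sub_one_le).trans ?_
  rw [Real.norm_eq_abs, abs_mul, abs_of_pos (by positivity : (0 : ℝ) < 2 * Real.pi)]
  refine mul_le_mul_of_nonneg_left ?_ (by positivity)
  refine (abs_add_le _ _).trans ?_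
  rw [abs_mul, abs_mul]

theorem ee_memLp {L : ℝ} {X Y : ℝ → ℝ} (hC : Coord L X Y) (p η : ℝ) :
    MemLp (fun s => ee X Y p η s) 2 ((volume : Measure ℝ).restrict (Set.Ioc (0 : ℝ) L)) :=
  MemLp.of_bound (ee_cont hC p η).aestronglyMeasurable 1
    (Eventually.of_forall fun s => (ee_norm X Y p η s).le)

/-- the exponential functions in `L²` of the curve -/
noncomputable def EE {L : ℝ} {X Y : ℝ → ℝ} (hC : Coord L X Y) (q : ℝ × ℝ) : XX L :=
  (ee_memLp hC q.1 q.2).toLp _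

theorem cf_eq {L : ℝ} {X Y : ℝ → ℝ} (hC : Coord L X Y) (q : ℝ × ℝ) (b : XX L) :
    cf L X Y q.1 q.2 b = ⟪EE hC q, b⟫_ℂ := by
  rw [inner_L2]
  unfold cf
  refine integral_congr_ae ?_
  filter_upwards [(ee_memLp hC q.1 q.2).coeFn_toLp] with s hs
  unfold EE
  rw [hs]

theorem EE_cont {L : ℝ} {X Y : ℝ → ℝ} (hC : Coord L X Y) : Continuous (EE hC) := by
  obtain ⟨BX, hBX⟩ : ∃ B : ℝ, ∀ s ∈ Set.Icc (0 : ℝ) L, ‖X s‖ ≤ B :=
    isCompact_Icc.exists_bound_of_continuousOn hC.contX.continuousOn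
  obtain ⟨BY, hBY⟩ : ∃ B : ℝ, ∀ s ∈ Set.Icc (0 : ℝ) L, ‖Y s‖ ≤ B :=
    isCompact_Icc.exists_bound_of_continuousOn hC.contY.continuousOn
  have hBX0 : 0 ≤ BX := (norm_nonneg _).trans (hBX 0 ⟨le_rfl, hC.pos.le⟩)
  have hBY0 : 0 ≤ BY := (norm_nonneg _).trans (hBY 0 ⟨le_rfl, hC.pos.le⟩)
  set μ : Measure ℝ := (volume : Measure ℝ).restrict (Set.Ioc (0 : ℝ) L) with hμ
  have key : ∀ q q' : ℝ × ℝ, dist (EE hC q) (EE hC q') ≤
      ((measureUnivNNReal μ : ℝ) ^ (2 : ENNReal).toReal⁻¹ * (2 * Real.pi * (BX + BY))) * dist q q' := by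
    intro q q'
    rw [dist_eq_norm, mul_assoc]
    have h0 : EE hC q - EE hC q' = ((ee_memLp hC q.1 q.2).sub (ee_memLp hC q'.1 q'.2)).toLp _ := rfl
    refine Lp.norm_le_of_ae_bound (by positivity) ?_
    rw [h0]
    filter_upwards [((ee_memLp hC q.1 q.2).sub (ee_memLp hC q'.1 q'.2)).coeFn_toLp,
      ae_restrict_mem measurableSet_Ioc] with s hs hs2
    rw [hs, Pi.sub_apply]
    refine (ee_sub X Y _ _ _ _ s).trans ?_
    have h1 : |q.1 - q'.1| ≤ dist q q' := by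
      rw [← Real.dist_eq]; exact le_max_left _ _
    have h2 : |q.2 - q'.2| ≤ dist q q' := by
      rw [← Real.dist_eq]; exact le_max_right _ _
    have h3 : |X s| ≤ BX := hBX s ⟨hs2.1.le, hs2.2⟩
    have h4 : |Y s| ≤ BY := hBY s ⟨hs2.1.le, hs2.2⟩
    have h5 : |q.1 - q'.1| * |X s| ≤ dist q q' * BX :=
      mul_le_mul h1 h3 (abs_nonneg _) dist_nonneg
    have h6 : |q.2 - q'.2| * |Y s| ≤ dist q q' * BY :=
      mul_le_mul h2 h4 (abs_nonneg _) dist_nonneg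
    have hpi := Real.pi_pos
    nlinarith
  have hlip : LipschitzWith (Real.toNNReal ((measureUnivNNReal μ : ℝ) ^ (2 : ENNReal).toReal⁻¹ *
      (2 * Real.pi * (BX + BY)))) (EE hC) := by
    refine LipschitzWith.of_dist_le_mul fun q q' => ?_
    rw [Real.coe_toNNReal _ (by positivity)]
    exact key q q'
  exact hlip.continuous

/-! ### null sets of fractional parts -/

theorem ae_fract {P : ℝ → Prop} (h : ∀ᵐ κ ∂((volume : Measure ℝ).restrict (Set.Ioo (0 : ℝ) 1)), P κ) :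
    ∀ᵐ q : ℝ × ℝ, P (Int.fract q.1) := by
  rw [ae_restrict_iff' measurableSet_Ioo] at h
  have h1 : ∀ n : ℤ, ∀ᵐ p : ℝ, p - (n : ℝ) ∈ Set.Ioo (0 : ℝ) 1 → P (p - (n : ℝ)) := fun n =>
    (measurePreserving_sub_right (volume : Measure ℝ) (n : ℝ)).quasiMeasurePreserving.ae h
  have h2 : ∀ᵐ p : ℝ, p ∉ Set.range (fun n : ℤ => (n : ℝ)) :=
    (Set.countable_range _).ae_notMem volume
  have h3 : ∀ᵐ p : ℝ, P (Int.fract p) := by
    filter_upwards [ae_all_iff.2 h1, h2] with p hp1 hp2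
    refine hp1 ⌊p⌋ ⟨?_, ?_⟩
    · have h4 := Int.fract_nonneg p
      rcases h4.lt_or_eq with h5 | h5
      · exact h5
      · exfalso
        apply hp2
        refine ⟨⌊p⌋, ?_⟩
        have h6 : p - (⌊p⌋ : ℝ) = 0 := h5.symm
        simp only
        linarith
    · exact Int.fract_lt_one p
  exact Measure.quasiMeasurePreserving_fst.ae h3

/-! ### norms -/

theorem nsq {Ω E : Type*} [MeasurableSpace Ω] [NormedAddCommGroup E] [InnerProductSpace ℂ E]
    (μ : Measure Ω) (f : Lp E 2 μ) : ‖f‖ ^ 2 = ∫ q, ‖f q‖ ^ 2 ∂μ := by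
  have h1 : (⟪f, f⟫_ℂ).re = ‖f‖ ^ 2 := by
    rw [inner_self_eq_norm_sq_to_K]
    norm_cast
  rw [← h1, L2.inner_def]
  have h2 := integral_re (L2.integrable_inner (𝕜 := ℂ) f f)
  simp only [RCLike.re_eq_complex_re] at h2
  rw [← h2]
  refine integral_congr_ae (Eventually.of_forall fun q => ?_)
  simp only
  rw [inner_self_eq_norm_sq_to_K]
  norm_cast

/-! ### weights -/

theorem om_nonneg (θ : ℝ) (q : ℝ × ℝ) : 0 ≤ om θ q := by
  unfold om; positivity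

theorem om_cont (θ : ℝ) : Continuous (om θ) := by
  unfold om; fun_prop

theorem wt_cont (θ r : ℝ) : Continuous (fun q : ℝ × ℝ => (((1 + om θ q) ^ (-r) : ℝ) : ℂ)) := by
  refine Complex.continuous_ofReal.comp ?_
  refine Continuous.rpow_const (continuous_const.add (om_cont θ)) fun q => Or.inl ?_
  have := om_nonneg θ q
  linarith

theorem wt_bound (θ r : ℝ) (hr : 0 ≤ r) (q : ℝ × ℝ) :
    ‖(((1 + om θ q) ^ (-r) : ℝ) : ℂ)‖ ≤ 1 := by
  have h := om_nonneg θ q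
  rw [Complex.norm_real, Real.norm_eq_abs, abs_of_nonneg (by positivity)]
  exact Real.rpow_le_one_of_one_le_of_nonpos (by linarith) (by linarith)

/-- the weight `(1 + om)^(-r)` -/
noncomputable def wt (θ r : ℝ) (hr : 0 ≤ r) : ℝ × ℝ →ᵇ ℂ :=
  BoundedContinuousFunction.ofNormedAddCommGroup (fun q => (((1 + om θ q) ^ (-r) : ℝ) : ℂ))
    (wt_cont θ r) 1 (wt_bound θ r hr)

theorem wt_apply (θ r : ℝ) (hr : 0 ≤ r) (q : ℝ × ℝ) :
    wt θ r hr q = (((1 + om θ q) ^ (-r) : ℝ) : ℂ) := rfl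

/-! ### the fibre bound -/

theorem rho_le {θ : ℝ} (hθ : 0 < θ) {κ : ℝ} (hκ : κ ∈ Set.Ioo (0 : ℝ) 1) (n : ℤ) (η : ℝ) :
    rho n η ≤ (4 + 2 / θ ^ 2) * (1 + om θ (κ + n, η)) := by
  have h1 : (n : ℝ) ^ 2 ≤ 2 * (κ + n) ^ 2 + 2 := by
    have h2 : κ ^ 2 ≤ 1 := by
      have := hκ.1; have := hκ.2; nlinarith
    nlinarith [sq_nonneg (κ + (κ + n))]
  have h3 : (κ + n) ^ 2 = θ ^ 2 * (κ + n) ^ 2 / θ ^ 2 := by field_simp
  have h4 : η ^ 2 ≤ 4 * Real.pi ^ 2 * η ^ 2 := by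
    have : (1 : ℝ) ≤ 4 * Real.pi ^ 2 := by nlinarith [Real.pi_gt_three]
    nlinarith [sq_nonneg η]
  unfold rho om
  simp only
  set A := θ ^ 2 * (κ + n) ^ 2 with hA
  have hA0 : 0 ≤ A := by positivity
  set B := 4 * Real.pi ^ 2 * η ^ 2 with hB
  have hB0 : 0 ≤ B := by positivity
  have h5 : 2 * (κ + n) ^ 2 = 2 / θ ^ 2 * A := by rw [h3]; ring
  have h6 : 0 ≤ 2 / θ ^ 2 := by positivity
  nlinarith [mul_nonneg h6 hB0, mul_nonneg h6 hA0]

theorem rho_pos (n : ℤ) (η : ℝ) : 0 < rho n η := by unfold rho; positivity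

theorem wt_le {θ : ℝ} (hθ : 0 < θ) {κ : ℝ} (hκ : κ ∈ Set.Ioo (0 : ℝ) 1) (n : ℤ) (η : ℝ) :
    (1 + om θ (κ + n, η)) ^ (-(3 / 4) : ℝ) ≤
      (4 + 2 / θ ^ 2) ^ (3 / 4 : ℝ) * rho n η ^ (-(3 / 4) : ℝ) := by
  have hK : 0 < 4 + 2 / θ ^ 2 := by positivity
  have h1 := rho_le hθ hκ n η
  have h2 : rho n η / (4 + 2 / θ ^ 2) ≤ 1 + om θ (κ + n, η) := by
    rw [div_le_iff₀ hK]; linarith
  have h3 := Real.rpow_le_rpow_of_nonpos (div_pos (rho_pos n η) hK) h2
    (by norm_num : (-(3 / 4) : ℝ) ≤ 0)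
  refine h3.trans (le_of_eq ?_)
  rw [Real.div_rpow (rho_pos n η).le hK.le, Real.rpow_neg hK.le, div_inv_eq_mul, mul_comm]

theorem cf_shift (L : ℝ) (X Y : ℝ → ℝ) (κ : ℝ) (n : ℤ) (η : ℝ) (b : ℝ → ℂ) :
    cf L X Y (κ + n) η b = ∫ s in Set.Ioc (0 : ℝ) L, conj (ee X Y n η s) *
      (conj (ee X Y κ 0 s) * b s) := by
  unfold cf
  refine integral_congr_ae (Eventually.of_forall fun s => ?_)
  have h1 : ee X Y (κ + n) η s = ee X Y n η s * ee X Y κ 0 s := by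
    unfold ee
    rw [← Complex.exp_add]
    congr 1
    push_cast
    ring
  simp only [h1, map_mul]
  ring

theorem cf_meas {L : ℝ} {X Y : ℝ → ℝ} (hC : Coord L X Y) (b : XX L) :
    Continuous (fun q : ℝ × ℝ => cf L X Y q.1 q.2 b) := by
  have : (fun q : ℝ × ℝ => cf L X Y q.1 q.2 b) = fun q => ⟪EE hC q, b⟫_ℂ := by
    funext q; exact cf_eq hC q b
  rw [this]
  exact (EE_cont hC).inner continuous_const

theorem fibre_bound (hT : JobTrace) {L θ : ℝ} {X Y : ℝ → ℝ} (hC : Coord L X Y) (hθ : 0 < θ) :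
    ∃ C : ℝ, 0 ≤ C ∧ ∀ κ ∈ Set.Ioo (0 : ℝ) 1, ∀ b : XX L,
      ∫⁻ q : ℤ × ℝ, ENNReal.ofReal (‖(((1 + om θ (κ + q.1, q.2)) ^ (-(3 / 8) : ℝ) : ℝ) : ℂ) *
        cf L X Y (κ + q.1) q.2 b‖ ^ 2) ∂nu ≤ ENNReal.ofReal (C * ‖b‖ ^ 2) := by
  obtain ⟨C, hC0, hb⟩ := hT L X Y hC
  refine ⟨(4 + 2 / θ ^ 2) ^ (3 / 4 : ℝ) * C, by positivity, fun κ hκ b => ?_⟩
  have hm : Measurable (fun q : ℤ × ℝ =>
      ENNReal.ofReal (‖(((1 + om θ (κ + q.1, q.2)) ^ (-(3 / 8) : ℝ) : ℝ) : ℂ) *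
        cf L X Y (κ + q.1) q.2 b‖ ^ 2)) := by
    have h1 : Continuous (fun q : ℝ × ℝ => ENNReal.ofReal (‖(((1 + om θ q) ^ (-(3 / 8) : ℝ) : ℝ) : ℂ) *
        cf L X Y q.1 q.2 b‖ ^ 2)) :=
      ENNReal.continuous_ofReal.comp ((((wt_cont θ (3 / 8)).mul (cf_meas hC b)).norm).pow 2)
    have h2 : Measurable (fun q : ℤ × ℝ => ((κ + q.1, q.2) : ℝ × ℝ)) := by
      refine Measurable.prodMk ?_ measurable_snd
      refine measurable_const.add ?_
      exact (measurable_from_top (f := fun n : ℤ => (n : ℝ))).comp measurable_fst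
    exact h1.measurable.comp h2
  unfold nu
  rw [lintegral_prod _ hm.aemeasurable, lintegral_count]
  -- the tilted function
  set b' : ℝ → ℂ := fun s => conj (ee X Y κ 0 s) * b s with hb'
  have hb'm : MemLp b' 2 (volume.restrict (Set.Ioc (0 : ℝ) L)) := by
    refine MemLp.of_le (Lp.memLp b) ?_ (Eventually.of_forall fun s => ?_)
    · exact ((Complex.continuous_conj.comp (ee_cont hC κ 0)).aestronglyMeasurable).mul
        (Lp.aestronglyMeasurable b)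
    · rw [hb', norm_mul, RCLike.norm_conj, ee_norm, one_mul]
  have hn : ∫ s in Set.Ioc (0 : ℝ) L, ‖b' s‖ ^ 2 = ‖b‖ ^ 2 := by
    rw [nsq]
    refine integral_congr_ae (Eventually.of_forall fun s => ?_)
    simp only [hb', norm_mul, RCLike.norm_conj, ee_norm, one_mul]
  have h1 := hb b' hb'm
  rw [hn] at h1
  calc ∑' n : ℤ, ∫⁻ η : ℝ, ENNReal.ofReal (‖(((1 + om θ (κ + n, η)) ^ (-(3 / 8) : ℝ) : ℝ) : ℂ) *
        cf L X Y (κ + n) η b‖ ^ 2)
      ≤ ∑' n : ℤ, ∫⁻ η : ℝ, ENNReal.ofReal ((4 + 2 / θ ^ 2) ^ (3 / 4 : ℝ)) *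
          ENNReal.ofReal (rho n η ^ (-(3 / 4) : ℝ) *
            ‖∫ s in Set.Ioc (0 : ℝ) L, conj (ee X Y n η s) * b' s‖ ^ 2) := by
        refine ENNReal.tsum_le_tsum fun n => lintegral_mono fun η => ?_
        rw [← ENNReal.ofReal_mul (by positivity)]
        refine ENNReal.ofReal_le_ofReal ?_
        rw [cf_shift, norm_mul, mul_pow, ← mul_assoc]
        refine mul_le_mul_of_nonneg_right ?_ (sq_nonneg _)
        refine le_trans (le_of_eq ?_) (wt_le hθ hκ n η)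
        have hpos : 0 < 1 + om θ (κ + n, η) := by
          have := om_nonneg θ (κ + n, η); linarith
        rw [Complex.norm_real, Real.norm_eq_abs, abs_of_nonneg (by positivity),
          ← Real.rpow_natCast, ← Real.rpow_mul hpos.le]
        norm_num
    _ = ENNReal.ofReal ((4 + 2 / θ ^ 2) ^ (3 / 4 : ℝ)) * ∑' n : ℤ, ∫⁻ η : ℝ,
          ENNReal.ofReal (rho n η ^ (-(3 / 4) : ℝ) *
            ‖∫ s in Set.Ioc (0 : ℝ) L, conj (ee X Y n η s) * b' s‖ ^ 2) := by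
        rw [← ENNReal.tsum_mul_left]
        congr 1
        funext n
        exact lintegral_const_mul' _ _ ENNReal.ofReal_ne_top
    _ ≤ ENNReal.ofReal ((4 + 2 / θ ^ 2) ^ (3 / 4 : ℝ)) * ENNReal.ofReal (C * ‖b‖ ^ 2) := by
        gcongr
    _ = ENNReal.ofReal ((4 + 2 / θ ^ 2) ^ (3 / 4 : ℝ) * C * ‖b‖ ^ 2) := by
        rw [← ENNReal.ofReal_mul (by positivity), mul_assoc]

/-! ### the operator `W1` -/

/-- the function `W1 y` -/
noncomputable def GF (L θ : ℝ) (X Y : ℝ → ℝ) (y : YY L) (q : ℝ × ℝ) : ℂ :=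
  (((1 + om θ q) ^ (-(3 / 8) : ℝ) : ℝ) : ℂ) * cf L X Y q.1 q.2 (y (Int.fract q.1) : XX L)

theorem GF_sm {L θ : ℝ} {X Y : ℝ → ℝ} (hC : Coord L X Y) (y : YY L) :
    StronglyMeasurable (GF L θ X Y y) := by
  have h1 : StronglyMeasurable (fun q : ℝ × ℝ => (y : ℝ → XX L) (Int.fract q.1)) :=
    (Lp.stronglyMeasurable y).comp_measurable (measurable_fract.comp measurable_fst)
  have h2 : StronglyMeasurable (fun q : ℝ × ℝ => EE hC q) := (EE_cont hC).stronglyMeasurable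
  have h3 : StronglyMeasurable (fun q : ℝ × ℝ => ⟪EE hC q, (y : ℝ → XX L) (Int.fract q.1)⟫_ℂ) :=
    h2.inner h1
  have h4 : GF L θ X Y y = fun q : ℝ × ℝ => (((1 + om θ q) ^ (-(3 / 8) : ℝ) : ℝ) : ℂ) *
      ⟪EE hC q, (y : ℝ → XX L) (Int.fract q.1)⟫_ℂ := by
    funext q
    unfold GF
    rw [cf_eq hC q]
  rw [h4]
  exact (wt_cont θ (3 / 8)).stronglyMeasurable.mul h3

theorem GF_bound (hT : JobTrace) {L θ : ℝ} {X Y : ℝ → ℝ} (hC : Coord L X Y) (hθ : 0 < θ) :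
    ∃ C : ℝ, 0 ≤ C ∧ ∀ y : YY L, ∫⁻ q, ENNReal.ofReal (‖GF L θ X Y y q‖ ^ 2) ≤
      ENNReal.ofReal (C * ‖y‖ ^ 2) := by
  obtain ⟨C, hC0, hb⟩ := fibre_bound hT hC hθ
  refine ⟨C, hC0, fun y => ?_⟩
  have hm : Measurable (fun q => ENNReal.ofReal (‖GF L θ X Y y q‖ ^ 2)) :=
    ((GF_sm hC y).norm.measurable.pow_const 2).ennreal_ofReal
  have hm2 : Measurable (fun a : ℝ × (ℤ × ℝ) =>
      ENNReal.ofReal (‖GF L θ X Y y (a.1 + (a.2.1 : ℝ), a.2.2)‖ ^ 2)) :=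
    hm.comp fib_mp.measurable
  rw [← fib_mp.lintegral_comp hm, lintegral_prod _ hm2.aemeasurable]
  have hi : Integrable (fun κ => ‖(y : ℝ → XX L) κ‖ ^ 2)
      ((volume : Measure ℝ).restrict (Set.Ioo (0 : ℝ) 1)) :=
    (memLp_two_iff_integrable_sq_norm (Lp.aestronglyMeasurable y)).1 (Lp.memLp y)
  calc ∫⁻ κ in Set.Ioo (0 : ℝ) 1, ∫⁻ q : ℤ × ℝ,
        ENNReal.ofReal (‖GF L θ X Y y (κ + (q.1 : ℝ), q.2)‖ ^ 2) ∂nu
      ≤ ∫⁻ κ in Set.Ioo (0 : ℝ) 1, ENNReal.ofReal (C * ‖(y : ℝ → XX L) κ‖ ^ 2) := by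
        refine setLIntegral_mono' measurableSet_Ioo fun κ hκ => ?_
        refine le_trans (le_of_eq ?_) (hb κ hκ (y κ))
        refine lintegral_congr fun q => ?_
        have hfr : Int.fract (κ + (q.1 : ℝ)) = κ := by
          rw [Int.fract_add_intCast]
          exact Int.fract_eq_self.2 ⟨hκ.1.le, hκ.2⟩
        unfold GF
        simp only [hfr]
    _ = ENNReal.ofReal (∫ κ in Set.Ioo (0 : ℝ) 1, C * ‖(y : ℝ → XX L) κ‖ ^ 2) :=
        (ofReal_integral_eq_lintegral_ofReal (hi.const_mul C)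
          (Eventually.of_forall fun κ => by positivity)).symm
    _ = ENNReal.ofReal (C * ‖y‖ ^ 2) := by
        rw [integral_const_mul, ← nsq]

theorem GF_memLp (hT : JobTrace) {L θ : ℝ} {X Y : ℝ → ℝ} (hC : Coord L X Y) (hθ : 0 < θ) (y : YY L) :
    MemLp (GF L θ X Y y) 2 volume := by
  obtain ⟨C, hC0, hb⟩ := GF_bound hT hC hθ
  have h1 := (GF_sm (θ := θ) hC y).aestronglyMeasurable (μ := volume)
  rw [memLp_two_iff_integrable_sq_norm h1]
  refine ⟨h1.norm.pow 2, ?_⟩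
  rw [hasFiniteIntegral_iff_ofReal (Eventually.of_forall fun q => by positivity)]
  exact (hb y).trans_lt ENNReal.ofReal_lt_top

theorem cf_add {L : ℝ} {X Y : ℝ → ℝ} (hC : Coord L X Y) (q : ℝ × ℝ) (a b : XX L) :
    cf L X Y q.1 q.2 (a + b : XX L) = cf L X Y q.1 q.2 a + cf L X Y q.1 q.2 b := by
  rw [cf_eq hC q, cf_eq hC q, cf_eq hC q, inner_add_right]

theorem cf_smul {L : ℝ} {X Y : ℝ → ℝ} (hC : Coord L X Y) (q : ℝ × ℝ) (c : ℂ) (b : XX L) :
    cf L X Y q.1 q.2 (c • b : XX L) = c * cf L X Y q.1 q.2 b := by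
  rw [cf_eq hC q, cf_eq hC q, inner_smul_right]

theorem exists_W1 (hT : JobTrace) {L θ : ℝ} {X Y : ℝ → ℝ} (hC : Coord L X Y) (hθ : 0 < θ) :
    ∃ W1 : YY L →L[ℂ] HH, ∀ y : YY L, (W1 y : ℝ × ℝ → ℂ) =ᵐ[volume] GF L θ X Y y := by
  obtain ⟨C, hC0, hb⟩ := GF_bound hT hC hθ
  let T : YY L →ₗ[ℂ] HH :=
    { toFun := fun y => (GF_memLp hT hC hθ y).toLp _
      map_add' := fun y z => by
        ext1
        filter_upwards [(GF_memLp hT hC hθ (y + z)).coeFn_toLp, (GF_memLp hT hC hθ y).coeFn_toLp,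
          (GF_memLp hT hC hθ z).coeFn_toLp,
          Lp.coeFn_add ((GF_memLp hT hC hθ y).toLp _) ((GF_memLp hT hC hθ z).toLp _),
          ae_fract (Lp.coeFn_add y z)] with q h1 h2 h3 h4 h5
        rw [h1, h4, Pi.add_apply, h2, h3]
        unfold GF
        rw [h5, Pi.add_apply, cf_add hC, mul_add]
      map_smul' := fun c y => by
        ext1
        filter_upwards [(GF_memLp hT hC hθ (c • y)).coeFn_toLp, (GF_memLp hT hC hθ y).coeFn_toLp,
          Lp.coeFn_smul c ((GF_memLp hT hC hθ y).toLp _),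
          ae_fract (Lp.coeFn_smul c y)] with q h1 h2 h4 h5
        rw [h1, RingHom.id_apply, h4, Pi.smul_apply, h2]
        unfold GF
        rw [h5, Pi.smul_apply, cf_smul hC, smul_eq_mul]
        ring }
  refine ⟨T.mkContinuous (Real.sqrt C) fun y => ?_, fun y => (GF_memLp hT hC hθ y).coeFn_toLp⟩
  have h1 : ‖T y‖ ^ 2 ≤ C * ‖y‖ ^ 2 := by
    rw [nsq]
    have h2 : ∫ q, ‖(T y : ℝ × ℝ → ℂ) q‖ ^ 2 = ∫ q, ‖GF L θ X Y y q‖ ^ 2 := by
      refine integral_congr_ae ?_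
      filter_upwards [(GF_memLp hT hC hθ y).coeFn_toLp] with q hq
      change ‖((GF_memLp hT hC hθ y).toLp _ : ℝ × ℝ → ℂ) q‖ ^ 2 = _
      rw [hq]
    have h3 : AEStronglyMeasurable (fun q => ‖GF L θ X Y y q‖ ^ 2) volume :=
      ((GF_sm (θ := θ) hC y).norm.measurable.pow_const 2).aestronglyMeasurable
    rw [h2, integral_eq_lintegral_of_nonneg_ae (Eventually.of_forall fun q => by positivity) h3]
    exact ENNReal.toReal_le_of_le_ofReal (by positivity) (hb y)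
  rw [← Real.sqrt_sq (norm_nonneg y), ← Real.sqrt_mul hC0]
  exact Real.le_sqrt_of_sq_le h1

/-! ### coercivity -/

theorem interp (θ : ℝ) (d : ℝ) (hd : 0 < d) (v : HH) :
    ‖mulB volume (wt θ (1 / 8) (by norm_num)) v‖ ^ 2 ≤
      d * ‖v‖ ^ 2 + (d ^ 3)⁻¹ * ‖mulB volume (wt θ (1 / 2) (by norm_num)) v‖ ^ 2 := by
  rw [nsq, nsq, nsq, ← integral_const_mul, ← integral_const_mul, ← integral_add]
  · refine integral_mono_ae ?_ ?_ ?_
    · exact (memLp_two_iff_integrable_sq_norm (Lp.aestronglyMeasurable _)).1 (Lp.memLp _)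
    · exact (((memLp_two_iff_integrable_sq_norm (Lp.aestronglyMeasurable v)).1
        (Lp.memLp v)).const_mul d).add
        (((memLp_two_iff_integrable_sq_norm (Lp.aestronglyMeasurable _)).1
        (Lp.memLp (mulB volume (wt θ (1 / 2) (by norm_num)) v))).const_mul _)
    · filter_upwards [mulB_ae volume (wt θ (1 / 8) (by norm_num)) v,
        mulB_ae volume (wt θ (1 / 2) (by norm_num)) v] with q h1 h2
      simp only [h1, h2, norm_mul, mul_pow, wt_apply]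
      have hpos : 0 < 1 + om θ q := by
        have := om_nonneg θ q; linarith
      set a : ℝ := (1 + om θ q) ^ (-(1 / 8) : ℝ) with ha
      have ha0 : 0 ≤ a := by positivity
      have hb : (1 + om θ q) ^ (-(1 / 2) : ℝ) = a ^ 4 := by
        rw [ha, ← Real.rpow_natCast, ← Real.rpow_mul hpos.le]
        norm_num
      rw [hb, Complex.norm_real, Complex.norm_real, Real.norm_eq_abs, Real.norm_eq_abs,
        abs_of_nonneg ha0, abs_of_nonneg (by positivity : (0 : ℝ) ≤ a ^ 4)]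
      have h3 : a ^ 2 ≤ d + (d ^ 3)⁻¹ * (a ^ 4) ^ 2 := by
        rcases le_total (a ^ 2) d with h | h
        · have : 0 ≤ (d ^ 3)⁻¹ * (a ^ 4) ^ 2 := by positivity
          linarith
        · have h4 : d ^ 3 * a ^ 2 ≤ (a ^ 4) ^ 2 := by
            calc d ^ 3 * a ^ 2 ≤ (a ^ 2) ^ 3 * a ^ 2 := by
                  gcongr
              _ = (a ^ 4) ^ 2 := by ring
          have h5 : a ^ 2 ≤ (d ^ 3)⁻¹ * (a ^ 4) ^ 2 := by
            rw [le_inv_mul_iff₀ (by positivity)]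
            exact h4
          linarith
      nlinarith [mul_le_mul_of_nonneg_right h3 (sq_nonneg ‖(v : ℝ × ℝ → ℂ) q‖)]
  · exact ((memLp_two_iff_integrable_sq_norm (Lp.aestronglyMeasurable v)).1 (Lp.memLp v)).const_mul d
  · exact ((memLp_two_iff_integrable_sq_norm (Lp.aestronglyMeasurable _)).1
        (Lp.memLp (mulB volume (wt θ (1 / 2) (by norm_num)) v))).const_mul _

theorem jobW (hT : JobTrace) : JobW := by
  intro L θ α X Y hC hθ hα
  obtain ⟨W1, hW1⟩ := exists_W1 hT hC hθ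
  set M := mulB volume (wt θ (1 / 8) (by norm_num)) with hM
  set N : ℝ := ‖ContinuousLinearMap.adjoint W1‖ with hN
  set d : ℝ := 1 / (2 * (α * N ^ 2) + 1) with hd
  have hN0 : 0 ≤ α * N ^ 2 := by positivity
  have hd0 : 0 < d := by positivity
  refine ⟨M.comp W1, mulB volume (wt θ (1 / 2) (by norm_num)), 1 + α * N ^ 2 * (d ^ 3)⁻¹, ?_, ?_, ?_⟩
  · intro y
    filter_upwards [hW1 y, mulB_ae volume (wt θ (1 / 8) (by norm_num)) (W1 y)] with q h1 h2
    rw [ContinuousLinearMap.comp_apply, h2, h1, wt_apply]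
    unfold GF
    have hpos : 0 < 1 + om θ q := by
      have := om_nonneg θ q; linarith
    rw [← mul_assoc, ← Complex.ofReal_mul, ← Real.rpow_add hpos]
    norm_num
  · intro v
    exact mulB_ae volume (wt θ (1 / 2) (by norm_num)) v
  · intro v
    have h1 : ContinuousLinearMap.adjoint (M.comp W1) v = ContinuousLinearMap.adjoint W1 (M v) := by
      refine ext_inner_left ℂ fun y => ?_
      rw [ContinuousLinearMap.adjoint_inner_right, ContinuousLinearMap.adjoint_inner_right,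
        ContinuousLinearMap.comp_apply, hM, mulB_symm]
      intro q
      rw [wt_apply, Complex.conj_ofReal]
    have h2 : ‖ContinuousLinearMap.adjoint W1 (M v)‖ ≤ N * ‖M v‖ :=
      ContinuousLinearMap.le_opNorm _ _
    have h3 := interp θ d hd0 v
    rw [← hM] at h3
    set SV := ‖mulB volume (wt θ (1 / 2) (by norm_num)) v‖ ^ 2 with hSV
    have h4 : ‖ContinuousLinearMap.adjoint W1 (M v)‖ ^ 2 ≤ N ^ 2 * ‖M v‖ ^ 2 := by
      rw [← mul_pow]
      exact pow_le_pow_left₀ (norm_nonneg _) h2 2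
    have h5 : α * ‖ContinuousLinearMap.adjoint W1 (M v)‖ ^ 2 ≤
        α * N ^ 2 * (d * ‖v‖ ^ 2 + (d ^ 3)⁻¹ * SV) := by
      calc α * ‖ContinuousLinearMap.adjoint W1 (M v)‖ ^ 2 ≤ α * (N ^ 2 * ‖M v‖ ^ 2) := by gcongr
        _ ≤ α * (N ^ 2 * (d * ‖v‖ ^ 2 + (d ^ 3)⁻¹ * SV)) := by gcongr
        _ = _ := by ring
    have h6 : α * N ^ 2 * d ≤ 1 / 2 := by
      rw [hd, mul_one_div, div_le_iff₀ (by positivity)]
      linarith
    rw [h1]
    nlinarith [sq_nonneg ‖v‖]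

end Pool.Agent.U469.LC
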